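import Pool.Agent.Helper47.KN.Goals

/-!
# Project KN (MP_08df5f_al), packet DN: density and homomorphisms to the group of order two
-/

set_option autoImplicit false

namespace Pool.Agent.Helper49.KN

open Equiv Pool.Agent.Helper62.GR Pool.Agent.Helper62.WB Pool.Agent.Helper47.KN

theorem hom_eq {n : ℕ} {A : Type} [CommGroup A] (ν : FreeGroup (ZMod (n + 2)) →* A)
    (w : FreeGroup (ZMod (n + 2))) :
    ν w = ∏ i : ZMod (n + 2), ν (FreeGroup.of i) ^ (Multiplicative.toAdd (ex i w) : ℤ) := by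
  classical
  have h1 : ν = ∏ i : ZMod (n + 2), (zpowersHom A (ν (FreeGroup.of i))).comp (ex i) := by
    refine FreeGroup.ext_hom _ _ fun j => ?_
    rw [MonoidHom.finset_prod_apply, Finset.prod_eq_single j]
    · rw [MonoidHom.comp_apply, zpowersHom_apply]
      unfold ex
      rw [FreeGroup.lift_apply_of, if_pos rfl, toAdd_ofAdd, zpow_one]
    · intro i _ hi
      rw [MonoidHom.comp_apply, zpowersHom_apply]
      unfold ex
      rw [FreeGroup.lift_apply_of, if_neg (Ne.symm hi), toAdd_ofAdd, zpow_zero]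
    · intro h
      exact absurd (Finset.mem_univ j) h
  conv_lhs => rw [h1]
  rw [MonoidHom.finset_prod_apply]
  refine Finset.prod_congr rfl fun i _ => ?_
  rw [MonoidHom.comp_apply, zpowersHom_apply]

theorem zpow_two (a : Multiplicative (ZMod 2)) (m m' : ℤ) (h : (m : ZMod 2) = (m' : ZMod 2)) :
    a ^ m = a ^ m' := by
  apply Multiplicative.toAdd.injective
  rw [toAdd_zpow, toAdd_zpow, zsmul_eq_mul, zsmul_eq_mul, h]

theorem t (hEX : Pool.Agent.Helper47.KN.K_EX) : Pool.Agent.Helper47.KN.K_DN := by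
  intro n v f α hf hα χ hχ
  obtain ⟨-, -, -, hd⟩ := hf
  obtain ⟨-, -, -, h4⟩ := hEX
  refine FreeGroup.ext_hom _ _ fun i => ?_
  rw [MonoidHom.one_apply]
  have hi := Pool.Agent.Helper47.KN.ev_of v i
  obtain ⟨h, hh, hx⟩ := hd (n + 2) (ag v i) (ag_mem v i)
  obtain ⟨w, rfl⟩ := exists_ev v hh
  rw [← hα w, ← hi] at hx
  have h5 : ∀ j : ZMod (n + 2), ((Multiplicative.toAdd (ex j (α w)) : ℤ) : ZMod 2) =
      ((Multiplicative.toAdd (ex j (FreeGroup.of i)) : ℤ) : ZMod 2) := by
    intro j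
    have h6 := h4 n v j.val (α w) (FreeGroup.of i) fun x k hk =>
      hx x k (by have := ZMod.val_lt j; omega)
    rwa [ZMod.natCast_zmod_val] at h6
  have h7 : χ (FreeGroup.of i) = χ (α w) := by
    rw [hom_eq χ (FreeGroup.of i), hom_eq χ (α w)]
    refine Finset.prod_congr rfl fun j _ => ?_
    exact zpow_two _ _ _ (h5 j).symm
  rw [h7]
  exact DFunLike.congr_fun hχ w

end Pool.Agent.Helper49.KN
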