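import Pool.Agent.Helper26.KN.Goals

/-! The partition functions of the random cluster model with one edge open (packet PSI). -/

namespace KN.PkPSI

open Finset PowerSeries Pool.Agent.Helper97.RCK KN

variable {V : Type} [Fintype V] [DecidableEq V]

theorem Psi_eq_ite (q w : ℝ) (R T : Finset V) (a b : V) :
    Psi q w R T a b = ∑ S ∈ (E Rᶜ).powerset,
      (if s(a, b) ∈ S then w ^ S.card * q ^ kap (R ∪ T) S else 0) := by
  unfold Psi
  rw [Finset.sum_filter]

theorem kap_congr {A A' : Finset V} {S S' : Finset (Sym2 V)}
    (h : ∀ f : V → Bool, Comp A S f ↔ Comp A' S' f) : kap A S = kap A' S' := by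
  unfold kap
  rw [cnt_congr h]

theorem kap_insert (R T : Finset V) (a b : V) (hab : a ∈ T ∨ b ∈ T) (S : Finset (Sym2 V)) :
    kap (R ∪ T) (insert s(a, b) S) = kap (R ∪ insert a (insert b T)) S := by
  apply kap_congr
  intro f
  unfold Comp
  constructor
  · rintro ⟨h1, h2⟩
    have h3 : f a = f b := h2 a b (Finset.mem_insert_self _ _)
    have hT : ∀ v ∈ T, f v = false := fun v hv => h1 v (Finset.mem_union_right _ hv)
    have hfab : f a = false ∧ f b = false := by
      rcases hab with h | h
      · exact ⟨hT a h, h3 ▸ hT a h⟩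
      · exact ⟨h3 ▸ hT b h, hT b h⟩
    refine ⟨fun v hv => ?_, fun x y hxy => h2 x y (Finset.mem_insert_of_mem hxy)⟩
    simp only [mem_union, mem_insert] at hv
    rcases hv with hv | hv | hv | hv
    · exact h1 v (Finset.mem_union_left _ hv)
    · rw [hv]; exact hfab.1
    · rw [hv]; exact hfab.2
    · exact hT v hv
  · rintro ⟨h1, h2⟩
    have ha : f a = false := h1 a (by simp)
    have hb : f b = false := h1 b (by simp)
    refine ⟨fun v hv => h1 v ?_, fun x y hxy => ?_⟩
    · simp only [mem_union, mem_insert] at hv ⊢
      tauto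
    · rcases Finset.mem_insert.1 hxy with h | h
      · rcases Sym2.eq_iff.1 h with ⟨rfl, rfl⟩ | ⟨rfl, rfl⟩
        · rw [ha, hb]
        · rw [ha, hb]
      · exact h2 x y h

theorem mem_E_ab {R : Finset V} {a b : V} (hab : a ≠ b) (ha : a ∈ Rᶜ) (hb : b ∈ Rᶜ) :
    s(a, b) ∈ E Rᶜ := mem_E.2 ⟨⟨ha, hb⟩, hab⟩

theorem Psi_phi (q w : ℝ) (hw : 0 < w) (N : ℕ) (R T : Finset V) (a b : V) (hR : Rᶜ.card = N)
    (hT : T ⊆ Rᶜ) (hab : a ≠ b) (ha : a ∈ Rᶜ) (hb : b ∈ Rᶜ) (h : a ∈ T ∨ b ∈ T) :
    Psi q w R T a b = w / (1 + w) * phi q w N (insert a (insert b T)).card := by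
  have hT2 : insert a (insert b T) ⊆ Rᶜ := by
    intro x hx
    simp only [mem_insert] at hx
    rcases hx with rfl | rfl | hx
    · exact ha
    · exact hb
    · exact hT hx
  rw [← Phi_eq q w N R _ hR hT2, Psi_eq_ite]
  unfold Phi
  have he : s(a, b) ∉ (E Rᶜ).erase s(a, b) := Finset.notMem_erase _ _
  rw [← Finset.insert_erase (mem_E_ab hab ha hb), Finset.sum_powerset_insert he,
    Finset.sum_powerset_insert he]
  have h1 : ∑ S ∈ ((E Rᶜ).erase s(a, b)).powerset,
      (if s(a, b) ∈ S then w ^ S.card * q ^ kap (R ∪ T) S else 0) = 0 := by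
    apply Finset.sum_eq_zero
    intro S hS
    rw [if_neg]
    intro h2
    exact he (Finset.mem_powerset.1 hS h2)
  have hcard : ∀ S ∈ ((E Rᶜ).erase s(a, b)).powerset, (insert s(a, b) S).card = S.card + 1 := by
    intro S hS
    rw [Finset.card_insert_of_notMem]
    intro h2
    exact he (Finset.mem_powerset.1 hS h2)
  have h2 : ∑ S ∈ ((E Rᶜ).erase s(a, b)).powerset,
      (if s(a, b) ∈ insert s(a, b) S then
        w ^ (insert s(a, b) S).card * q ^ kap (R ∪ T) (insert s(a, b) S) else 0) =
      w * ∑ S ∈ ((E Rᶜ).erase s(a, b)).powerset,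
        w ^ S.card * q ^ kap (R ∪ insert a (insert b T)) S := by
    rw [Finset.mul_sum]
    refine Finset.sum_congr rfl (fun S hS => ?_)
    rw [if_pos (Finset.mem_insert_self _ _), hcard S hS, kap_insert R T a b h]
    ring
  have h3 : ∑ S ∈ ((E Rᶜ).erase s(a, b)).powerset,
      w ^ (insert s(a, b) S).card * q ^ kap (R ∪ insert a (insert b T)) (insert s(a, b) S) =
      w * ∑ S ∈ ((E Rᶜ).erase s(a, b)).powerset,
        w ^ S.card * q ^ kap (R ∪ insert a (insert b T)) S := by
    rw [Finset.mul_sum]
    refine Finset.sum_congr rfl (fun S hS => ?_)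
    have e1 : insert a (insert b (insert a (insert b T))) = insert a (insert b T) := by
      ext x
      simp only [mem_insert]
      tauto
    rw [hcard S hS, kap_insert R (insert a (insert b T)) a b (Or.inl (by simp)), e1]
    ring
  rw [h1, h2, h3]
  have h4 : (1 + w) ≠ 0 := by positivity
  field_simp
  ring

theorem Psi_rec (q w : ℝ) {R T : Finset V} (hT : T ⊆ Rᶜ) {u a b : V} (hu : u ∈ T) (hau : a ≠ u)
    (hbu : b ≠ u) :
    Psi q w R T a b = (1 + w) ^ (T.erase u).card *
      ∑ J ∈ (Rᶜ \ T).powerset, w ^ J.card * Psi q w (insert u R) (T.erase u ∪ J) a b := by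
  have huR : u ∈ Rᶜ := hT hu
  have eR : (insert u R)ᶜ = Rᶜ.erase u := by
    ext x; simp
  have split : Rᶜ.erase u = T.erase u ∪ (Rᶜ \ T) := by
    ext x
    simp only [mem_erase, mem_union, mem_sdiff]
    constructor
    · rintro ⟨h1, h2⟩
      by_cases h3 : x ∈ T
      · exact Or.inl ⟨h1, h3⟩
      · exact Or.inr ⟨h2, h3⟩
    · rintro (⟨h1, h2⟩ | ⟨h1, h2⟩)
      · exact ⟨h1, hT h2⟩
      · exact ⟨fun h => h2 (h ▸ hu), h1⟩
  have disj : Disjoint (T.erase u) (Rᶜ \ T) := by
    rw [Finset.disjoint_left]
    intro x h1 h2
    exact (Finset.mem_sdiff.1 h2).2 (Finset.mem_of_mem_erase h1)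
  simp_rw [Psi_eq_ite]
  rw [sum_E_split huR]
  simp_rw [eR]
  have h1 : ∀ S ∈ (E (Rᶜ.erase u)).powerset,
      ∑ K ∈ (Rᶜ.erase u).powerset, (if s(a, b) ∈ S ∪ star u K then
        w ^ (S ∪ star u K).card * q ^ kap (R ∪ T) (S ∪ star u K) else 0) =
      (1 + w) ^ (T.erase u).card * ∑ J ∈ (Rᶜ \ T).powerset,
        w ^ J.card * (if s(a, b) ∈ S then
          w ^ S.card * q ^ kap (insert u R ∪ (T.erase u ∪ J)) S else 0) := by
    intro S hS
    rw [Finset.mem_powerset] at hS
    rw [split, sum_powerset_union disj]
    have h2 : ∀ J' ∈ (T.erase u).powerset, ∀ J ∈ (Rᶜ \ T).powerset,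
        (if s(a, b) ∈ S ∪ star u (J' ∪ J) then
          w ^ (S ∪ star u (J' ∪ J)).card * q ^ kap (R ∪ T) (S ∪ star u (J' ∪ J)) else 0) =
        w ^ J'.card * (w ^ J.card * (if s(a, b) ∈ S then
          w ^ S.card * q ^ kap (insert u R ∪ (T.erase u ∪ J)) S else 0)) := by
      intro J' hJ' J hJ
      rw [Finset.mem_powerset] at hJ' hJ
      have hm : s(a, b) ∈ S ∪ star u (J' ∪ J) ↔ s(a, b) ∈ S := by
        rw [Finset.mem_union]
        constructor
        · rintro (h | h)
          · exact h
          · rcases mem_star.1 h with ⟨h, -⟩ | ⟨h, -⟩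
            · exact absurd h hau
            · exact absurd h hbu
        · exact fun h => Or.inl h
      by_cases hS2 : s(a, b) ∈ S
      · rw [if_pos (hm.2 hS2), if_pos hS2]
        rw [card_union_star hS, kap_star (Finset.mem_union_right _ hu)]
        have e1 : R ∪ T ∪ (J' ∪ J) = insert u R ∪ (T.erase u ∪ J) := by
          ext x
          simp only [mem_union, mem_insert, mem_erase]
          constructor
          · rintro ((h | h) | h | h)
            · tauto
            · by_cases hx : x = u
              · tauto
              · tauto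
            · have := Finset.mem_erase.1 (hJ' h)
              tauto
            · tauto
          · rintro ((h | h) | h | h)
            · subst h; tauto
            · tauto
            · tauto
            · tauto
        rw [e1, Finset.card_union_of_disjoint (disj.mono hJ' hJ)]
        ring
      · rw [if_neg (fun h => hS2 (hm.1 h)), if_neg hS2]
        ring
    rw [Finset.sum_congr rfl (fun J' hJ' => Finset.sum_congr rfl (h2 J' hJ'))]
    rw [← sum_pow_card_one, Finset.sum_mul]
    refine Finset.sum_congr rfl (fun J' _ => ?_)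
    rw [← Finset.mul_sum]
  rw [Finset.sum_congr rfl h1, ← Finset.mul_sum, Finset.sum_comm]
  congr 1
  refine Finset.sum_congr rfl (fun J _ => ?_)
  rw [← Finset.mul_sum]

theorem Psi_zero (q w : ℝ) {R : Finset V} {a b : V} (ha : a ∉ R) :
    Psi q w R ∅ a b = q * Psi q w R {a} a b := by
  rw [Psi_eq_ite, Psi_eq_ite, Finset.mul_sum]
  refine Finset.sum_congr rfl (fun S hS => ?_)
  rw [Finset.union_empty, kap_flip ha (Finset.mem_powerset.1 hS)]
  have : R ∪ {a} = insert a R := by
    ext x; simp
  rw [this]
  split_ifs
  · ring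
  · ring

theorem Psi_Yn (q w : ℝ) (hw : 0 < w) (a b : V) (hab : a ≠ b) (N : ℕ) (R T : Finset V)
    (hR : Rᶜ.card = N) (hT : T ⊆ Rᶜ) (ha : a ∈ Rᶜ) (hb : b ∈ Rᶜ) (haT : a ∉ T) (hbT : b ∉ T) :
    Psi q w R T a b = w / (1 + w) * Yn q w N T.card := by
  induction N generalizing R T with
  | zero =>
    have h1 : Rᶜ = ∅ := Finset.card_eq_zero.1 hR
    rw [h1] at ha
    exact absurd ha (Finset.notMem_empty _)
  | succ N ih =>
    rcases Finset.eq_empty_or_nonempty T with rfl | ⟨u, hu⟩
    · have ha' : a ∉ R := by simpa using ha
      rw [Psi_zero q w ha', Psi_phi q w hw (N + 1) R {a} a b hR (by simpa using ha) hab ha hb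
        (Or.inl (by simp))]
      have h2 : (insert a (insert b {a} : Finset V)).card = 2 := by
        have : (insert a (insert b {a}) : Finset V) = insert a {b} := by
          ext x
          simp only [mem_insert, mem_singleton]
          tauto
        rw [this, Finset.card_insert_of_notMem (by simpa using hab), Finset.card_singleton]
      rw [h2, Finset.card_empty, Yn]
      ring
    · have hau : a ≠ u := fun h => haT (h ▸ hu)
      have hbu : b ≠ u := fun h => hbT (h ▸ hu)
      have huR : u ∈ Rᶜ := hT hu
      have eR : (insert u R)ᶜ = Rᶜ.erase u := by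
        ext x; simp
      have hcard : (insert u R)ᶜ.card = N := by
        rw [eR, Finset.card_erase_of_mem huR, hR]
        rfl
      obtain ⟨k, hk⟩ : ∃ k, T.card = k + 1 := ⟨T.card - 1, by
        have : 0 < T.card := Finset.card_pos.2 ⟨u, hu⟩
        omega⟩
      have hc : (T.erase u).card = k := by
        rw [Finset.card_erase_of_mem hu, hk]; rfl
      have haR' : a ∈ (insert u R)ᶜ := by
        rw [eR, Finset.mem_erase]; exact ⟨hau, ha⟩
      have hbR' : b ∈ (insert u R)ᶜ := by
        rw [eR, Finset.mem_erase]; exact ⟨hbu, hb⟩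
      rw [Psi_rec q w hT hu hau hbu, hc, hk, Yn]
      set A' : Finset V := ((Rᶜ \ T).erase a).erase b with hA'
      have haA : a ∈ Rᶜ \ T := Finset.mem_sdiff.2 ⟨ha, haT⟩
      have hbA : b ∈ (Rᶜ \ T).erase a :=
        Finset.mem_erase.2 ⟨hab.symm, Finset.mem_sdiff.2 ⟨hb, hbT⟩⟩
      have hbA' : b ∉ A' := by rw [hA']; exact Finset.notMem_erase _ _
      have haA' : a ∉ insert b A' := by
        rw [hA', Finset.insert_erase hbA]; exact Finset.notMem_erase _ _
      have eA : Rᶜ \ T = insert a (insert b A') := by
        rw [hA', Finset.insert_erase hbA, Finset.insert_erase haA]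
      have cA : A'.card = N - 2 - k := by
        have h1 : (Rᶜ \ T).card = (N + 1) - (k + 1) := by
          rw [Finset.card_sdiff_of_subset hT, hR, hk]
        have h2 := congrArg Finset.card eA
        rw [h1, Finset.card_insert_of_notMem haA', Finset.card_insert_of_notMem hbA'] at h2
        omega
      rw [eA, Finset.sum_powerset_insert haA', Finset.sum_powerset_insert hbA',
        Finset.sum_powerset_insert hbA', ← Finset.sum_add_distrib, ← Finset.sum_add_distrib,
        ← Finset.sum_add_distrib]
      have key : ∀ J ∈ A'.powerset,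
          w ^ J.card * Psi q w (insert u R) (T.erase u ∪ J) a b +
            w ^ (insert b J).card * Psi q w (insert u R) (T.erase u ∪ insert b J) a b +
          (w ^ (insert a J).card * Psi q w (insert u R) (T.erase u ∪ insert a J) a b +
            w ^ (insert a (insert b J)).card *
              Psi q w (insert u R) (T.erase u ∪ insert a (insert b J)) a b) =
          w / (1 + w) * (w ^ J.card * ((fun i => Yn q w N i + (2 * w + w ^ 2) *
            phi q w N (i + 2)) (k + J.card))) := by
        intro J hJ
        rw [Finset.mem_powerset] at hJ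
        have haJ : a ∉ J := fun h => haA' (Finset.mem_insert_of_mem (hJ h))
        have hbJ : b ∉ J := fun h => hbA' (hJ h)
        have hJR : ∀ x ∈ J, x ∈ Rᶜ ∧ x ∉ T := by
          intro x hx
          have h1 := hJ hx
          rw [hA'] at h1
          exact Finset.mem_sdiff.1 (Finset.mem_of_mem_erase (Finset.mem_of_mem_erase h1))
        have hsub0 : T.erase u ∪ J ⊆ (insert u R)ᶜ := by
          rw [eR]
          intro x hx
          rcases Finset.mem_union.1 hx with hx | hx
          · rw [Finset.mem_erase] at hx ⊢
            exact ⟨hx.1, hT hx.2⟩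
          · rw [Finset.mem_erase]
            exact ⟨fun h => (hJR x hx).2 (h ▸ hu), (hJR x hx).1⟩
        have hins : ∀ x : V, x ∈ (insert u R)ᶜ → ∀ K : Finset V, T.erase u ∪ K ⊆ (insert u R)ᶜ →
            T.erase u ∪ insert x K ⊆ (insert u R)ᶜ := by
          intro x hx K hK y hy
          rcases Finset.mem_union.1 hy with hy | hy
          · exact hK (Finset.mem_union_left _ hy)
          · rcases Finset.mem_insert.1 hy with rfl | hy
            · exact hx
            · exact hK (Finset.mem_union_right _ hy)
        have hdisj : Disjoint (T.erase u) J := by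
          rw [Finset.disjoint_left]
          intro x h1 h2
          exact (hJR x h2).2 (Finset.mem_of_mem_erase h1)
        have hcJ : (T.erase u ∪ J).card = k + J.card := by
          rw [Finset.card_union_of_disjoint hdisj, hc]
        have haU : a ∉ T.erase u ∪ J := by
          rw [Finset.mem_union]
          rintro (h | h)
          · exact haT (Finset.mem_of_mem_erase h)
          · exact haJ h
        have hbU : b ∉ T.erase u ∪ J := by
          rw [Finset.mem_union]
          rintro (h | h)
          · exact hbT (Finset.mem_of_mem_erase h)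
          · exact hbJ h
        have hc2 : (insert a (insert b (T.erase u ∪ J))).card = k + J.card + 2 := by
          rw [Finset.card_insert_of_notMem, Finset.card_insert_of_notMem hbU, hcJ]
          rw [Finset.mem_insert]
          rintro (h | h)
          · exact hab h
          · exact haU h
        have hP0 : Psi q w (insert u R) (T.erase u ∪ J) a b =
            w / (1 + w) * Yn q w N (k + J.card) := by
          rw [ih (insert u R) (T.erase u ∪ J) hcard hsub0 haR' hbR' haU hbU, hcJ]
        have hPb : Psi q w (insert u R) (T.erase u ∪ insert b J) a b =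
            w / (1 + w) * phi q w N (k + J.card + 2) := by
          rw [Psi_phi q w hw N _ _ a b hcard (hins b hbR' J hsub0) hab haR' hbR'
            (Or.inr (by simp)), ← hc2]
          congr 2
          congr 1
          ext x
          simp only [mem_insert, mem_union]
          tauto
        have hPa : Psi q w (insert u R) (T.erase u ∪ insert a J) a b =
            w / (1 + w) * phi q w N (k + J.card + 2) := by
          rw [Psi_phi q w hw N _ _ a b hcard (hins a haR' J hsub0) hab haR' hbR'
            (Or.inl (by simp)), ← hc2]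
          congr 2
          congr 1
          ext x
          simp only [mem_insert, mem_union]
          tauto
        have hPab : Psi q w (insert u R) (T.erase u ∪ insert a (insert b J)) a b =
            w / (1 + w) * phi q w N (k + J.card + 2) := by
          rw [Psi_phi q w hw N _ _ a b hcard (hins a haR' _ (hins b hbR' J hsub0)) hab haR' hbR'
            (Or.inl (by simp)), ← hc2]
          congr 2
          congr 1
          ext x
          simp only [mem_insert, mem_union]
          tauto
        have c1 : (insert b J).card = J.card + 1 := Finset.card_insert_of_notMem hbJ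
        have c2 : (insert a J).card = J.card + 1 := Finset.card_insert_of_notMem haJ
        have c3 : (insert a (insert b J)).card = J.card + 2 := by
          rw [Finset.card_insert_of_notMem, c1]
          rw [Finset.mem_insert]
          rintro (h | h)
          · exact hab h
          · exact haJ h
        rw [hP0, hPa, hPb, hPab, c1, c2, c3]
        ring
      have hfin := sum_pow_card w A' (fun i => Yn q w N i + (2 * w + w ^ 2) *
        phi q w N (i + 2)) k
      rw [cA] at hfin
      rw [Finset.sum_congr rfl key, ← Finset.mul_sum, hfin]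
      ring

/-- Packet PSI. -/
theorem psi : G_PSI := by
  intro V _ _ q w N R T a b hw hR hT hab ha hb
  exact ⟨fun haT hbT => Psi_Yn q w hw a b hab N R T hR hT ha hb haT hbT,
    fun h => Psi_phi q w hw N R T a b hR hT hab ha hb h⟩

end KN.PkPSI
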